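import Pool.Agent.H55.MX.Adl

/-!
# Rational points near rational points at several places, for surfaces with automorphisms of positive entropy
(helper55; the dynamical part rests on work of helpers 32, 46, 52, 64, 72, 85, 95, see `MP_f9f755_nt.AutomorphismGroups`)

`X ⊂ ℙⁿ` is a surface over a number field `K` (irreducible, possibly singular), `π : X → ℙᵐ` a morphism which is an
isomorphism onto its image outside of a closed subset `E` of `X`, and `P i`, `i < r`, and `Q j`, `j < s`, `r ≠ s`, are
automorphisms of `X` which map `E` to itself, with `⨂ (P i)^* π^* O(1) ≅ ⨂ (Q j)^* π^* O(1)`.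

The main example: a K3 surface `X` over `K` with an automorphism `f` over `K` of positive entropy, `E` the union of the
finitely many curves which are periodic under `f`.  Let `S` be the minimal polynomial of the dynamical degree (`S` is
reciprocal, and `S(1) ≠ 0`).  There is a nef and big line bundle `H` killed by `S(f^*)`, of degree zero just on the
curves of `E`; `π` is given by a multiple of `H`, and `P` and `Q` are given by the positive and negative coefficients of
`S`.  These surfaces have in general no fibration by curves of genus one.

We prove: there is a finite set `B` of places of `K` such that for all finite sets `T` of places of `K` outside of `B` and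
each point `x` of `∏_{v ∈ T} X(K_v)` one of the following holds:
* all points of `X(K)` near `x` lie on `E`;
* `x` is one of finitely many points of `X(K)` (those with finite orbit outside of `E`), isolated in `X(K)`;
* the points of `X(K)` in each neighbourhood of `x` are Zariski dense in `X`.
In particular for each point `p` of `X(K)` outside of `E`, with finitely many exceptions, the points of `X(K)` in each
neighbourhood of `p` in the space of the adelic points of `X` outside of `B` are Zariski dense in `X`.

If the Brauer–Manin obstruction is the only one to weak approximation on the K3 surface `X` then `X(K)` is dense in an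
adelic neighbourhood of each of its points, as `Br(X)/Br_0(X)` is finite.  The theorem says that the part of this for
the places outside of `B` is true for the Zariski topology on the rational points near `p`.

Idea of the proof.  The set of the `K`-points in a product of small discs at places of good reduction is stable under a
subgroup of finite index of the group `Γ` generated by the `P i` and `Q j`.  An infinite set of `K`-points outside
of `E` with this property does not lie on a curve: on an irreducible curve the ratio of the heights of `π(γ x)` and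
`π(x)` would have a limit `ρ(γ)`, which depends only on the coset of `γ`, with `∑ ρ(P i γ) = ∑ ρ(Q j γ)`, and so `r = s`.
-/

set_option autoImplicit false

open MvPolynomial Pool.Agent.H55.MG Pool.Agent.H55.MX
open Pool.Agent.H55.MZ (Poly NoZero Homog)
open scoped LinearAlgebra.Projectivization

namespace Pool.Agent.Results.MP_ed3816_nt.AdelicNeighbourhoods

variable {K : Type} [Field K] {n : ℕ}

/-- `f` is an automorphism of the pair `(X, E)`: the permutation `f` of `X(K)` and its inverse are given by forms on
`X`, and `f` maps the `K`-points of `E` to the `K`-points of `E`. -/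
def IsAut (I E : Ideal (Poly K n)) (f : Equiv.Perm (RatPt I)) : Prop :=
  Regular I f ∧ Regular I f.symm ∧ ∀ p, On E (f p) ↔ On E p

/-- The orbit of the point `p` of `X(K)` under the group generated by the `P i` and the `Q j` is finite. -/
def FinOrb {I : Ideal (Poly K n)} {r s : ℕ} (P : Fin r → Equiv.Perm (RatPt I)) (Q : Fin s → Equiv.Perm (RatPt I))
    (p : RatPt I) : Prop :=
  (MulAction.orbit (Subgroup.closure (Set.range P ∪ Set.range Q)) p).Finite

/-- **Theorem.**  Let `K` be a number field, `I ≤ E` homogeneous ideals of `K[x₀, …, x_n]`, `X ⊃ E` their varieties in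
`ℙⁿ`, `X` irreducible of dimension at most two, `π : X → ℙᵐ` a morphism which has outside of `E` an inverse given by
forms.  Let `P i`, `i < r`, and `Q j`, `j < s`, `r ≠ s`, be automorphisms of `(X, E)` with
`⨂ (P i)^* π^* O(1) ≅ ⨂ (Q j)^* π^* O(1)`, and `Γ` the group generated by them.  Then only finitely many points of `X(K)`
outside of `E` have a finite orbit under `Γ`, and there is `N ≠ 0` such that for all nonarchimedean local fields
`L 0, …, L T ⊃ K` in which `N` is a unit:

* for all points `x t` over `L t` either all points of `X(K)` near `x = (x t)` lie on `E`; or `x` is a point `p` of `X(K)`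
  outside of `E` with finite orbit, and `p` is the only point of `X(K)` near `x`; or the points of `X(K)` in each
  neighbourhood of `x` are Zariski dense in `X`;
* for all points `p` of `X(K)` outside of `E` with infinite orbit the points of `X(K)` in each neighbourhood of `p` in the
  product of the sets of the points over the `L t` are Zariski dense in `X`. -/
theorem result {K : Type} [Field K] [NumberField K] {n m : ℕ} (I E : Ideal (Poly K n)) (_ : Homog I) (_ : Homog E)
    (_ : I ≤ E) (_ : IsSurface I) (π : RatPt I → ℙ K (Fin (m + 1) → K)) (_ : RegularTo I π) (_ : InvOut I E π)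
    {r s : ℕ} (_ : r ≠ s) (P : Fin r → Equiv.Perm (RatPt I)) (Q : Fin s → Equiv.Perm (RatPt I))
    (_ : ∀ i, IsAut I E (P i)) (_ : ∀ j, IsAut I E (Q j))
    (_ : LinEquivTo I (fun i p => π (P i p)) (fun j p => π (Q j p))) :
    {p : RatPt I | ¬ On E p ∧ FinOrb P Q p}.Finite ∧
    ∃ N : ℕ, N ≠ 0 ∧ ∀ (T : ℕ) (L : Fin (T + 1) → Type) [∀ t, NontriviallyNormedField (L t)]
      [∀ t, IsUltrametricDist (L t)] [∀ t, ProperSpace (L t)] (σ : ∀ t, K →+* L t), (∀ t, ‖(N : L t)‖ = 1) →
      (∀ x : ∀ t, Fin (n + 1) → L t, (∀ t, x t ≠ 0) →
        (∃ ε : ℝ, 0 < ε ∧ ∀ w : RatPt I, NearAll σ x ε (vec w) → On E w) ∨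
        (∃ p : RatPt I, ¬ On E p ∧ FinOrb P Q p ∧
          (∀ t, ∃ c : L t, c ≠ 0 ∧ x t = fun i => c * σ t (vec p i)) ∧
          ∃ ε : ℝ, 0 < ε ∧ ∀ w : RatPt I, NearAll σ x ε (vec w) → w = p) ∨
        ∀ ε : ℝ, 0 < ε → ZDense I {w | NearAll σ x ε (vec w)}) ∧
      ∀ p : RatPt I, ¬ On E p → ¬ FinOrb P Q p → ∀ ε : ℝ, 0 < ε →
        ZDense I {w | NearAll σ (fun t i => σ t (vec p i)) ε (vec w)} := by
  rename_i hI hE hIE hs hπ hinv hrs hP hQ hPQ
  have hset : Setting I E π P Q := ⟨hI, hE, hIE, hrs, hπ, hinv, fun i => ⟨(hP i).1, (hP i).2.1⟩,
    fun j => ⟨(hQ j).1, (hQ j).2.1⟩, fun i => (hP i).2.2, fun j => (hQ j).2.2, hPQ⟩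
  refine ⟨hset.finOrb, ?_⟩
  obtain ⟨N, hN, h⟩ := hset.adelic hs
  refine ⟨N, hN, fun T L _ _ _ σ hL => ⟨h T L σ hL, fun p hpE hp => ?_⟩⟩
  have hx : ∀ t, (fun i => σ t (vec p i)) ≠ 0 := by
    intro t h0
    apply vec_ne p
    funext i
    exact (map_eq_zero (σ t)).1 (congrFun h0 i)
  have hself : ∀ ε : ℝ, 0 < ε → NearAll σ (fun t i => σ t (vec p i)) ε (vec p) := fun ε hε t =>
    ⟨1, one_ne_zero, fun i => by simpa using hε⟩
  rcases h T L σ hL (fun t i => σ t (vec p i)) hx with ⟨ε, hε, h1⟩ | ⟨q, -, hq, -, ε, hε, h1⟩ | h1
  · exact absurd (h1 p (hself ε hε)) hpE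
  · rw [← h1 p (hself ε hε)] at hq
    exact absurd hq hp
  · exact h1

end Pool.Agent.Results.MP_ed3816_nt.AdelicNeighbourhoods
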