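import Pool.Agent.H58U.Opn

set_option autoImplicit false

/-!
# K3 surfaces `w² = e F(x, y)`: the closure of the rational points is open at the rational points outside a
# finite set and finitely many fibres, uniformly in all quadratic twists and all extensions of bounded degree

`K` is a number field and `F` a form of bidegree `(4, 4)` over `K` such that the curve `F = 0` in `ℙ¹ × ℙ¹` is
smooth; `X_e : w² = e F(x, y)` is a K3 surface. If the Brauer–Manin obstruction is the only one to weak
approximation on `X_e` over `L`, then the closure of `X_e(L)` in each finite product of sets `X_e(L_v)` is open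
(`Br(X) / Br₀(X)` is finite). We show for every `D`: there are a finite set `T` and finitely many fibres
`{x = c}`, `{y = c}` of the two genus one fibrations, over the algebraic closure, such that for ALL extensions `L` of
`K` of degree at most `D` and ALL `e ∈ Lˣ`, the closure of `X_e(L)` is a neighbourhood of every point `P = (z, w)` of
`X_e(L)` with `w ≠ 0` which does not lie over `T`, where, if `P` lies on one of the finitely many fibres, it is
assumed that in the fibre of the other fibration through `P` the difference of `(z, w)` and `(z, -w)` has infinite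
order; here the closure is taken in the product over an arbitrary finite nonempty set of places of `L` of degree one
over different primes `p`, with or without a real place (for `L = ℚ` these are all the finite sets of places which
contain a finite place). All four affine charts of `ℙ¹ × ℙ¹` are treated.

Proof. The heights of the points of degree at most `D` such that the differences of `(z, w)` and `(z, -w)` on both
fibres have finite order are bounded, and this condition does not depend on the twist (`Pool.Agent.Q35.TB`). At the
other points the starting result `OpenAwayFromTorsion` applies, if the fibre in the direction of which the point moves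
is not special; the special fibres over `L` are special over the algebraic closure, where there are finitely many.
-/

open MvPolynomial

namespace Pool.Agent.Results.MP_ed3816_nt.OpenClosureAllTwists

open Pool.Agent.Results.MP_ed3816_nt.OpenAwayFromTorsion

section defs

variable {K : Type} [Field K]

/-- `F` is a form of bidegree `(4, 4)` in the pairs of variables `(0, 0), (0, 1)` and `(1, 0), (1, 1)`. -/
def IsForm (F : MvPolynomial (Fin 2 × Fin 2) K) : Prop :=
  ∀ m ∈ F.support, ∀ j, m (j, 0) + m (j, 1) = 4

/-- The curve `F = 0` in `ℙ¹ × ℙ¹` is smooth. -/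
def Smooth (F : MvPolynomial (Fin 2 × Fin 2) K) : Prop :=
  ∀ x : Fin 2 × Fin 2 → AlgebraicClosure K, (∀ j, ∃ b, x (j, b) ≠ 0) → ∃ p, aeval x (pderiv p F) ≠ 0

/-- The polynomial `F` over the extension `L` of `K`. -/
noncomputable def ext (L : Type) [Field L] [Algebra K L] (F : MvPolynomial (Fin 2 × Fin 2) K) :
    MvPolynomial (Fin 2 × Fin 2) L := map (algebraMap K L) F

/-- The affine chart of `ℙ¹ × ℙ¹` in which the coordinates `(j, ε j)` are `1`. -/
noncomputable def chart (F : MvPolynomial (Fin 2 × Fin 2) K) (ε : Fin 2 → Fin 2) : MvPolynomial (Fin 2) K :=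
  aeval (fun p : Fin 2 × Fin 2 => if p.2 = ε p.1 then 1 else X p.1) F

end defs

/-- **Theorem.** -/
theorem result (K : Type) [Field K] [NumberField K] (F : MvPolynomial (Fin 2 × Fin 2) K) (hF : IsForm F)
    (hS : Smooth F) (D : ℕ) :
    ∃ (T : (Fin 2 → Fin 2) → Set (Fin 2 → AlgebraicClosure K))
      (E : (Fin 2 → Fin 2) → Fin 2 → Set (AlgebraicClosure K)),
      (∀ ε, (T ε).Finite) ∧ (∀ ε j, (E ε j).Finite) ∧
      ∀ (L : Type) [Field L] [NumberField L] [Algebra K L], Module.finrank K L ≤ D → ∀ e : L, e ≠ 0 →
      -- the point `(z, w)` in the chart `ε`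
      ∀ (ε : Fin 2 → Fin 2) (z : Fin 2 → L) (w : L), w ≠ 0 → OnCover (C e * chart (ext L F) ε) (z, w) →
      ∀ φ : L →ₐ[K] AlgebraicClosure K, (fun j => φ (z j)) ∉ T ε →
      (∀ j, φ (z j) ∈ E ε j → Moves (C e * chart (ext L F) ε) (z, w) j) →
      -- the places
      ∀ (ι : Type) [Finite ι] [Nonempty ι] (p : ι → ℕ) [∀ v, Fact (p v).Prime], Function.Injective p →
      ∀ σ : ∀ v, L →+* ℚ_[p v],
        OpenAt (C e * chart (ext L F) ε) σ (fun v => image (σ v) (z, w)) ∧
        ∀ τ : L →+* ℝ,
          OpenAtReal (C e * chart (ext L F) ε) σ τ (image τ (z, w), fun v => image (σ v) (z, w)) := by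
  have hF' : Pool.Agent.Q35.TT.Hom4 F := hF
  have hS' : Pool.Agent.Q35.TT.SmoothF F := hS
  have h := fun ε : Fin 2 → Fin 2 => Pool.Agent.H58U.opnU K (Pool.Agent.Q35.TT.ch F ε)
    (Pool.Agent.Q182.TT.CHF.chf K 2 F hF' ε).1 ((Pool.Agent.Q182.TT.CHF.chf K 2 F hF' ε).2.1 hS') D
  choose T E hT hE h using h
  refine ⟨T, E, hT, hE, ?_⟩
  intro L _ _ _ hD e he ε
  have hfd : Module.Finite K L := Module.Finite.of_restrictScalars_finite ℚ K L
  have halg : Algebra.IsAlgebraic K L := Algebra.IsAlgebraic.of_finite K L
  have e3 : chart (ext L F) ε = Pool.Agent.Q35.TB.ex L (Pool.Agent.Q35.TT.ch F ε) :=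
    (Pool.Agent.Q35.TB.exf2 K L 2 F hF').2.2.1 ε
  rw [e3]
  exact h ε L hD e he

end Pool.Agent.Results.MP_ed3816_nt.OpenClosureAllTwists
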