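import Pool.Agent.H58RC.All

set_option autoImplicit false

/-!
# K3 surfaces `w² = e F(x, y)`: the closure of the rational points consists of whole real components,
# uniformly in all quadratic twists and all extensions of bounded degree

`K` is a number field and `F` a form of bidegree `(4, 4)` over `K` such that the curve `F = 0` in `ℙ¹ × ℙ¹` is
smooth; `X_e : w² = e F(x, y)` is a K3 surface. A point of `X_e` is given by a representative `(X, W)`, where
`X` consists of the two pairs of homogeneous coordinates, up to the action `scale` of pairs of nonzero scalars.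

The Brauer–Manin set depends only on the connected components at the real places, and `Br(X) / Br₀(X)` is finite.
So if the Brauer–Manin obstruction is the only one to weak approximation on `X_e` over `L`, then the closure of
`X_e(L)` in the product of `X_e(ℝ)` (for a real place) and the sets `X_e(L_v)` for finitely many finite places `v` is
open, and it is a union of sets `M × {y}`, where `M` is a connected component of `X_e(ℝ)`. Mazur's conjecture is
related to the case without finite places.

**Theorem.** For every `D` there are a finite set `T` and finitely many fibres `{z_j = c}`, `c ∈ E j`, of the two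
genus one fibrations (over the algebraic closure, in each of the four affine charts), with the following properties
for ALL extensions `L` of `K` of degree at most `D`, ALL `e ∈ Lˣ` and all embeddings `τ : L → ℝ`. Let `S` be the set
of the rational points `P = (z, w)` of `X_e(L)`, `w ≠ 0`, which do not lie over `T`, such that for each `j` with
`z_j ∈ E j` the point moves in the direction `j`, that is, the curve `w² = e F` through `P` on which only `z_j` varies
is smooth of genus one and the difference of `(z, w)` and `(z, -w)` has infinite order in its Jacobian (`Good`).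

(1) For all finite families (also the empty one) of locally compact ultrametric fields `M_v` and embeddings
`σ_v : L → M_v` (for example: completions at arbitrary different finite places): the closure of `S` in
`X_e(ℝ) × ∏ X_e(M_v)` is a union of sets `M × {y}`, where `M` is a connected component of the real K3 surface
`X_e(ℝ)`.

(2) For all finite nonempty families of embeddings `σ_v : L → ℚ_[p v]`, for different primes `p v`: the closure of
`S` contains `M × U`, where `M` is the connected component of `P ∈ S` in `X_e(ℝ)` and `U` is a neighbourhood of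
`P` in `∏ X_e(ℚ_[p v])`.

(3) For each `L` all rational points of all `X_e`, `e ∈ Lˣ`, with `w ≠ 0`, belong to `S`, except for those over a
finite set `T'` (not depending on `e`) and over the special lines: the lines `z_j = c` on which `∂F / ∂z_j` is a
constant multiple of `F`; they belong to the finitely many lines `z_j ∈ E j`. (One expects that a general `F` has no
special lines. The rational points with `w = 0` lie on the branch curve, of genus 9, and there are finitely many of
them by the theorem of Faltings, which is not used.)

In the statements the real points are replaced by the set `cone` of all their representatives (a connected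
component of the cone lies over a connected component of `X_e(ℝ)`, and all sets are invariant under `scale`).

Proof. On a fibre through `P` one moves to the points which are linearly equivalent to `P + m (P - ι P)`, `ι` the
involution `w ↦ -w`. If the difference has infinite order, then already the multiples `m` divisible by a large number
`M` give points which are dense near `P` on the real fibre, and which are near `P` at all ultrametric places, uniformly
in the fibre and the point (`S_RSL`, `S_STAY`). At a point near the branch curve, `w → 0`, we have `W ≈ (2 m + 1) w`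
for the new ordinate `W`; so one can change to the other side of the branch curve (`S_CRO`). Hence the set of
the real points which can be reached is open and closed: at the points where one of the two fibres is smooth
directly, and the finitely many other points do not disconnect the real surface. The uniformity is from the finiteness
of the points of bounded degree with torsion differences on both fibres (`Pool.Agent.Q35.TB`).

The names of the three parts below are `WholeComponents`, `ComponentTimesOpen` and `AlmostAllGood`.

The lemmas were proved by the helpers 7 (`PTB`), 8 (`PUNCT`), 31 (`G1`, `G2`, `PERT`), 62 (`CHART`, `RSL`, `CRO`,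
`SLD`), 64 (`CRS`), 66 (`MOVE`), 92 (`SMR`), 94 (`G3`, `G4`, `BRE`) and 58; the lemmas on curves of genus one
from the starting files of helper 720 are used, and the lemmas of the projects `Pool.Agent.Q35.TT`, `TB`.
-/

open MvPolynomial

namespace Pool.Agent.Results.MP_ed3816_nt.RealComponentsAllTwists

section defs

variable {K : Type} [Field K]

/-- `F` is a form of bidegree `(4, 4)` in the pairs of variables `(0, 0), (0, 1)` and `(1, 0), (1, 1)`. -/
def IsForm (F : MvPolynomial (Fin 2 × Fin 2) K) : Prop :=
  ∀ m ∈ F.support, ∀ j, m (j, 0) + m (j, 1) = 4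

/-- The curve `F = 0` in `ℙ¹ × ℙ¹` is smooth. -/
def Smooth (F : MvPolynomial (Fin 2 × Fin 2) K) : Prop :=
  ∀ x : Fin 2 × Fin 2 → AlgebraicClosure K, (∀ j, ∃ b, x (j, b) ≠ 0) → ∃ p, aeval x (pderiv p F) ≠ 0

/-- The polynomial `F` over the extension `L` of `K`. -/
noncomputable def ext (L : Type) [Field L] [Algebra K L] (F : MvPolynomial (Fin 2 × Fin 2) K) :
    MvPolynomial (Fin 2 × Fin 2) L := map (algebraMap K L) F

/-- The polynomial of the form `G` in the affine chart of `ℙ¹ × ℙ¹` in which the coordinates `(j, ε j)` are `1`. -/
noncomputable def chart (G : MvPolynomial (Fin 2 × Fin 2) K) (ε : Fin 2 → Fin 2) : MvPolynomial (Fin 2) K :=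
  aeval (fun p : Fin 2 × Fin 2 => if p.2 = ε p.1 then 1 else X p.1) G

/-- The representatives `(X, W)` of the points of the double cover `W² = G(X)` of `ℙ¹ × ℙ¹`. -/
def cone (G : MvPolynomial (Fin 2 × Fin 2) K) : Set ((Fin 2 × Fin 2 → K) × K) :=
  {X | (∀ j, ∃ b, X.1 (j, b) ≠ 0) ∧ X.2 ^ 2 = eval X.1 G}

/-- Another representative of the same point. -/
def scale (d : Fin 2 → K) (X : (Fin 2 × Fin 2 → K) × K) : (Fin 2 × Fin 2 → K) × K :=
  (fun p => d p.1 * X.1 p, (d 0 * d 1) ^ 2 * X.2)

/-- The representative of the point with the affine coordinates `P = (z, w)` in the chart `ε`. -/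
def lift (ε : Fin 2 → Fin 2) (P : (Fin 2 → K) × K) : (Fin 2 × Fin 2 → K) × K :=
  (fun p => if p.2 = ε p.1 then 1 else P.1 p.1, P.2)

/-- The image of a point `(z, w)` under an embedding of fields. -/
def image {F : Type} [Field F] (φ : K →+* F) (P : (Fin 2 → K) × K) : (Fin 2 → F) × F :=
  (fun j => φ (P.1 j), φ P.2)

/-- The restriction `q(t) = g(z + t e_i)` of a polynomial to the line through `z` in the direction of the `i`-th
coordinate. -/
noncomputable def line (g : MvPolynomial (Fin 2) K) (z : Fin 2 → K) (i : Fin 2) : Polynomial K :=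
  aeval (fun k => Polynomial.C (z k) + Polynomial.C ((Pi.single i 1 : Fin 2 → K) k) * Polynomial.X) g

/-- The Jacobian of the curve `w² = c + q₁ t + q₂ t² + q₃ t³ + q₄ t⁴` of genus one (the cubic resolvent), `q_k` the
coefficients of `q`. -/
noncomputable def jacobian (q : Polynomial K) (c : K) : WeierstrassCurve K :=
  ⟨0, q.coeff 2, 0, q.coeff 1 * q.coeff 3 - 4 * c * q.coeff 4,
    q.coeff 1 ^ 2 * q.coeff 4 + c * q.coeff 3 ^ 2 - 4 * c * q.coeff 2 * q.coeff 4⟩

/-- The curve `w² = q(t)` is smooth of genus one. -/
def GenusOne (q : Polynomial K) : Prop := (jacobian q (q.coeff 0)).Δ ≠ 0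

/-- The first coordinate, on the Jacobian, of the difference of the two points `(0, w)`, `(0, -w)` of the curve
`w² = q(t)`. -/
noncomputable def abscissa (q : Polynomial K) (w : K) : K := q.coeff 1 ^ 2 / (4 * w ^ 2) - q.coeff 2

/-- The second coordinate. -/
noncomputable def ordinate (q : Polynomial K) (w : K) : K :=
  (q.coeff 1 * abscissa q w + 2 * w ^ 2 * q.coeff 3) / (2 * w)

/-- The difference of the two points `(0, w)`, `(0, -w)` of the curve `w² = q(t)` has infinite order in the
Jacobian. -/
def InfiniteOrder (q : Polynomial K) (w : K) : Prop :=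
  letI : DecidableEq K := Classical.decEq K
  ∀ h : (jacobian q (w ^ 2)).toAffine.Nonsingular (abscissa q w) (ordinate q w),
    ∀ n : ℕ, n ≠ 0 → n • (.some (abscissa q w) (ordinate q w) h : (jacobian q (w ^ 2)).toAffine.Point) ≠ 0

/-- The point `P = (z, w)` moves in the direction `i`: the curve through `P` on which only `z_i` varies is smooth of
genus one, and the difference of `(z, w)` and `(z, -w)` has infinite order in its Jacobian. -/
def Moves (g : MvPolynomial (Fin 2) K) (P : (Fin 2 → K) × K) (i : Fin 2) : Prop :=
  GenusOne (line g P.1 i) ∧ InfiniteOrder (line g P.1 i) P.2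

/-- The line of the points with the same `j`-th coordinate as `z` is special: on it the derivative of `f` in the
direction `j` is a constant multiple of `f`. -/
def Special (f : MvPolynomial (Fin 2) K) (j : Fin 2) (z : Fin 2 → K) : Prop :=
  ∃ κ : K, ∀ y : Fin 2 → K, y j = z j → eval y (pderiv j f) = κ * eval y f

end defs

section points

variable {Ω L : Type} [Field Ω] [Field L]

/-- The rational points `P = (z, w)` in the chart `ε` of the surface `W² = G(X)`, `w ≠ 0`, with `z ∉ T ε`, which
move in the direction `j` if `z_j ∈ E ε j`. -/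
def Good (T : (Fin 2 → Fin 2) → Set (Fin 2 → Ω)) (E : (Fin 2 → Fin 2) → Fin 2 → Set Ω)
    (G : MvPolynomial (Fin 2 × Fin 2) L) (φ : L →+* Ω) (ε : Fin 2 → Fin 2) : Set ((Fin 2 → L) × L) :=
  {P | P.2 ≠ 0 ∧ P.2 ^ 2 = eval P.1 (chart G ε) ∧ (fun j => φ (P.1 j)) ∉ T ε ∧
    ∀ j, φ (P.1 j) ∈ E ε j → Moves (chart G ε) P j}

/-- The image of the good rational points in the product of the real cone and the cones over the fields `M v`: all
families of representatives, over `ℝ` and over the fields `M v`, of one rational point `P`, which is good in some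
chart. -/
def ratPoints (T : (Fin 2 → Fin 2) → Set (Fin 2 → Ω)) (E : (Fin 2 → Fin 2) → Fin 2 → Set Ω)
    (G : MvPolynomial (Fin 2 × Fin 2) L) (φ : L →+* Ω) {V : Type} {M : V → Type} [∀ v, Field (M v)]
    (τ : L →+* ℝ) (σ : ∀ v, L →+* M v) :
    Set (((Fin 2 × Fin 2 → ℝ) × ℝ) × (∀ v, (Fin 2 × Fin 2 → M v) × M v)) :=
  {S | ∃ (ε : Fin 2 → Fin 2) (P : (Fin 2 → L) × L), P ∈ Good T E G φ ε ∧
    (∃ d : Fin 2 → ℝ, (∀ j, d j ≠ 0) ∧ S.1 = scale d (lift ε (image τ P))) ∧
    ∀ v, ∃ d : Fin 2 → M v, (∀ j, d j ≠ 0) ∧ S.2 v = scale d (lift ε (image (σ v) P))}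

/-- (1) The closure of the good rational points in the product of the real surface and the surfaces over finitely many
(or no) locally compact ultrametric fields `M v` is a union of sets `C × {y}`, where `C` is a connected component of
the real surface. -/
def WholeComponents (T : (Fin 2 → Fin 2) → Set (Fin 2 → Ω)) (E : (Fin 2 → Fin 2) → Fin 2 → Set Ω)
    (G : MvPolynomial (Fin 2 × Fin 2) L) (φ : L →+* Ω) (τ : L →+* ℝ) : Prop :=
  ∀ (V : Type) [Finite V] (M : V → Type) [∀ v, NontriviallyNormedField (M v)] [∀ v, ProperSpace (M v)]
    [∀ v, IsUltrametricDist (M v)] (σ : ∀ v, L →+* M v)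
    (x : (Fin 2 × Fin 2 → ℝ) × ℝ) (y : ∀ v, (Fin 2 × Fin 2 → M v) × M v),
    (x, y) ∈ closure (ratPoints T E G φ τ σ) →
    ∀ x' ∈ connectedComponentIn (cone (map τ G)) x, (x', y) ∈ closure (ratPoints T E G φ τ σ)

/-- (2) For each good rational point `P`, the closure of the good rational points in the product of the real surface
and the surfaces over the fields `ℚ_[p v]`, for finitely many different primes `p v` (at least one) and embeddings of
`L` in these fields, contains `C × U`, where `C` is the connected component of `P` in the real surface and `U` is a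
neighbourhood of `P` in the product of the other surfaces. -/
def ComponentTimesOpen (T : (Fin 2 → Fin 2) → Set (Fin 2 → Ω)) (E : (Fin 2 → Fin 2) → Fin 2 → Set Ω)
    (G : MvPolynomial (Fin 2 × Fin 2) L) (φ : L →+* Ω) (τ : L →+* ℝ) : Prop :=
  ∀ (ι : Type) [Finite ι] [Nonempty ι] (p : ι → ℕ) [∀ v, Fact (p v).Prime], Function.Injective p →
    ∀ (σ : ∀ v, L →+* ℚ_[p v]) (ε : Fin 2 → Fin 2), ∀ P ∈ Good T E G φ ε,
    ∃ U ∈ nhds (fun v => lift ε (image (σ v) P)),
      ∀ x' ∈ connectedComponentIn (cone (map τ G)) (lift ε (image τ P)),
      ∀ y ∈ U, (∀ v, y v ∈ cone (map (σ v) G)) → (x', y) ∈ closure (ratPoints T E G φ τ σ)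

/-- (3) The special lines belong to the exceptional lines. All rational points with `w ≠ 0` of all the surfaces
`W² = e G(X)`, `e ∈ Lˣ`, are good, except for those over a finite set (which does not depend on `e`) and over the
special lines. -/
def AlmostAllGood (T : (Fin 2 → Fin 2) → Set (Fin 2 → Ω)) (E : (Fin 2 → Fin 2) → Fin 2 → Set Ω)
    (G : MvPolynomial (Fin 2 × Fin 2) L) (φ : L →+* Ω) : Prop :=
  ∀ ε : Fin 2 → Fin 2, (∀ (j : Fin 2) (z : Fin 2 → L), Special (chart G ε) j z → φ (z j) ∈ E ε j) ∧
    ∃ T' : Set (Fin 2 → L), T'.Finite ∧ ∀ e : L, e ≠ 0 → ∀ P : (Fin 2 → L) × L,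
      P.2 ≠ 0 → P.2 ^ 2 = eval P.1 (chart (C e * G) ε) → P.1 ∉ T' →
      (∀ j, ¬ Special (chart G ε) j P.1) → P ∈ Good T E (C e * G) φ ε

end points

/-- **Theorem.** -/
theorem result (K : Type) [Field K] [NumberField K] (F : MvPolynomial (Fin 2 × Fin 2) K) (hF : IsForm F)
    (hS : Smooth F) (D : ℕ) :
    ∃ (T : (Fin 2 → Fin 2) → Set (Fin 2 → AlgebraicClosure K))
      (E : (Fin 2 → Fin 2) → Fin 2 → Set (AlgebraicClosure K)),
      (∀ ε, (T ε).Finite) ∧ (∀ ε j, (E ε j).Finite) ∧
      ∀ (L : Type) [Field L] [NumberField L] [Algebra K L], Module.finrank K L ≤ D →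
      ∀ φ : L →ₐ[K] AlgebraicClosure K,
      (∀ e : L, e ≠ 0 → ∀ τ : L →+* ℝ,
        WholeComponents T E (C e * ext L F) (φ : L →+* AlgebraicClosure K) τ ∧
        ComponentTimesOpen T E (C e * ext L F) (φ : L →+* AlgebraicClosure K) τ) ∧
      AlmostAllGood T E (ext L F) (φ : L →+* AlgebraicClosure K) := by
  have hF' : Pool.Agent.Q35.TT.Hom4 F := hF
  have hS' : Pool.Agent.Q35.TT.SmoothF F := hS
  have h := fun ε : Fin 2 → Fin 2 => Pool.Agent.H58RC.dat K (Pool.Agent.Q35.TT.ch F ε)
    (Pool.Agent.Q182.TT.CHF.chf K 2 F hF' ε).1 ((Pool.Agent.Q182.TT.CHF.chf K 2 F hF' ε).2.1 hS') D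
  choose T E h using h
  refine ⟨T, E, fun ε => (h ε).finT, fun ε => (h ε).finE, ?_⟩
  intro L _ _ _ hD φ
  have hfd : Module.Finite K L := Module.Finite.of_restrictScalars_finite ℚ K L
  have halg : Algebra.IsAlgebraic K L := Algebra.IsAlgebraic.of_finite K L
  have hex : ∀ ε, Pool.Agent.Q35.TT.ch (Pool.Agent.Q35.TB.ex L F) ε =
      Pool.Agent.Q35.TB.ex L (Pool.Agent.Q35.TT.ch F ε) := (Pool.Agent.Q35.TB.exf2 K L 2 F hF').2.2.1
  refine ⟨fun e he τ => ⟨?_, ?_⟩, ?_⟩
  · intro V _ M _ _ _ σ x y hxy x' hx'
    exact Pool.Agent.H58RC.part1 Pool.Agent.H58RC.lems hF' hS' h hD he φ hex τ σ x x' y hxy hx'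
  · intro ι _ _ p _ hp σ ε P hP
    exact Pool.Agent.H58RC.part2 Pool.Agent.H58RC.lems hF' hS' h hD he φ hex τ hp σ hP
  · intro ε
    exact ⟨Pool.Agent.H58RC.part3b hF' h φ hex ε, Pool.Agent.H58RC.part3 hF' hS' h φ hex ε⟩

end Pool.Agent.Results.MP_ed3816_nt.RealComponentsAllTwists
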